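import Pool.Agent.N586.SN.Time

/-!
# The bound on the tensor spectral norm is `∀ℝ`-complete

The input is a `d × d × d` tensor `T` of rational numbers (a nested list of length `d`) and a positive
rational number `σ`, in binary. `SpectralNormBound` asks whether `‖T‖ ≤ σ`, `SpectralNormExceed`
asks whether `‖T‖ > σ`, where `‖T‖` is the supremum of `|T(x, y, z)|` over unit vectors.

Sketch of the hardness proof. For bilinear forms `g_l` with small integer coefficients the form
`C (|x|²|y|² + ⟨x,y⟩²) - ∑ g_l(x,y)² + 4 (x₀ y₀)²` is an explicit sum `∑_k A_k(x,y)²` of squares of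
bilinear forms with integer coefficients, and the tensor `∑_k z_k A_k(x,y)` has spectral norm greater
than `√(2C)` iff there are `x`, `y` with `C(..)` `|x ∧ y|² + ∑ g_l(x,y)² < 4 (x₀ y₀)²`. So, after
normalization to `x₀ = y₀ = 1`, the vectors `x` and `y` are close to each other and all equations
`g_l(x,y) = 0` hold up to an error `2`. One takes for the `g_l` the equations `u₀ = 8 x₀`,
`u_{j+1} x₀ = u_j²` of a chain, which is expanding, so that the last value `U` is doubly exponentially
large in spite of the errors, and the equations of an arbitrary system of quadratic equations on the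
unit cube, homogenized with `U` instead of `x₀`. The errors are then doubly exponentially small
relative to `U`, and by a gap theorem the system has an exact solution.
-/

namespace Pool.Agent.Results.MP_50cd9e_lc.SpectralNormComplete

open Pool.Agent.NPC Pool.Agent.NPC.ER Pool.Agent.N586.SN

/-- SPECTRAL-NORM-BOUND is `∀ℝ`-complete and SPECTRAL-NORM-EXCEED is `∃ℝ`-complete, under
polynomial-time many-one reductions. -/
theorem result : ARComplete (lang SpectralNormBound) ∧ ERComplete (lang SpectralNormExceed) :=
  ⟨⟨Pool.Agent.NPC.N586SN.bound_mem, Pool.Agent.NPC.N586SN.bound_hard⟩,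
    ⟨Pool.Agent.NPC.N586SN.exceed_mem, Pool.Agent.NPC.N586SN.exceed_hard⟩⟩

end Pool.Agent.Results.MP_50cd9e_lc.SpectralNormComplete
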